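import Pool.Agent.R329.SalemEx

set_option autoImplicit false

/-!
# MP_b81a64_nt: an algebraic integer `α > 1` for which the set of the values `limsup ‖ξ α ^ n‖`
is not closed

The number is `α = ((2 + √2) + √((2 + √2)² - 4)) / 2 = 3.09…`, the largest root of
`X⁴ - 4 X³ + 4 X² - 4 X + 1`.  The set `S α` is dense in `[0, 1/2]`, but `S α ∩ [0, 1/14)` is
countable.
-/

namespace Pool.Agent.Results.MP_b81a64_nt.QuarticSalemNotClosed

open Filter

/-- the distance from `x` to the nearest integer -/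
noncomputable def distInt (x : ℝ) : ℝ := |x - round x|

/-- the set of all values `limsup ‖ξ α ^ n‖` (`n → ∞`), `ξ` real -/
noncomputable def S (α : ℝ) : Set ℝ :=
  {t | ∃ ξ : ℝ, t = limsup (fun n : ℕ => distInt (ξ * α ^ n)) atTop}

theorem result :
    ∃ α : ℝ, 1 < α ∧ IsIntegral ℤ α ∧ α = ((2 + √2) + √((2 + √2) ^ 2 - 4)) / 2 ∧
      α ^ 4 - 4 * α ^ 3 + 4 * α ^ 2 - 4 * α + 1 = 0 ∧
      ¬ IsClosed (S α) ∧ Set.Icc (0 : ℝ) (1 / 2) ⊆ closure (S α) ∧
      (S α ∩ Set.Iio (1 / 14)).Countable := by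
  have h := Pool.Agent.R329.Salem.salem_α4
  refine ⟨Pool.Agent.R329.Salem.α4, h.1, h.2.1, rfl, ?_,
    Pool.Agent.R329.Salem.not_closed _ h, Pool.Agent.R329.Salem.dense _ h, ?_⟩
  · rw [← Pool.Agent.R329.Salem.P4_evalR]
    exact Pool.Agent.R329.Salem.α4_root
  · have h1 := Pool.Agent.R329.Salem.countable _ h.1 Pool.Agent.R329.Salem.P4
      Pool.Agent.R329.Salem.P4_monic Pool.Agent.R329.Salem.α4_root
    rw [Pool.Agent.R329.Salem.P4_length] at h1
    exact h1

end Pool.Agent.Results.MP_b81a64_nt.QuarticSalemNotClosed
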